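import Pool.Agent.H51R3.PS.Common
import Pool.Agent.H607R3.PS.RegR
import Pool.Agent.H607R3.PS.Grade
import Pool.Agent.H633R3.PS.Loc
import Pool.Agent.H291R3.PSB.Base
import Pool.Agent.H841.PSRes
import Pool.Agent.H594.PSRegP

/-!
# The grade conjecture fails over `RR[[t]]/(st)`

Dimension and grade of the module `RP / cP` over the ring `RP = RR[[t]]/(st)`.
-/

set_option autoImplicit false

open IsLocalRing

namespace Pool.Agent.N38.GradeP

open Pool.Agent.H607R3.PS H51R3.PS

variable {T : Type} [CommRing T] {α β γ : T}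

/-- the projection `RP → RR`, `t ↦ 0` -/
noncomputable def phi : RP T α β γ →+* RR T α β γ :=
  Ideal.Quotient.lift _ (PowerSeries.constantCoeff (R := RR T α β γ)) (by
    intro f hf
    rw [Ideal.mem_span_singleton] at hf
    obtain ⟨c, rfl⟩ := hf
    simp)

theorem phi_toRP (u : RR T α β γ) : phi (toRP u) = u := by
  change Ideal.Quotient.lift _ _ _ (Ideal.Quotient.mk _ (PowerSeries.C u)) = u
  rw [Ideal.Quotient.lift_mk]
  simp

/-- the class of `t` -/
noncomputable def tau : RP T α β γ := Ideal.Quotient.mk _ PowerSeries.X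

theorem phi_tau : phi (tau : RP T α β γ) = 0 := by
  change Ideal.Quotient.lift _ _ _ (Ideal.Quotient.mk _ PowerSeries.X) = 0
  rw [Ideal.Quotient.lift_mk]
  simp

theorem s_tau : (toRP RR.s : RP T α β γ) * tau = 0 := by
  change Ideal.Quotient.mk _ (PowerSeries.C RR.s) * Ideal.Quotient.mk _ PowerSeries.X = 0
  rw [← map_mul, Ideal.Quotient.eq_zero_iff_mem]
  exact Ideal.mem_span_singleton_self _

theorem decompose (f : RP T α β γ) : ∃ g : RP T α β γ, f = toRP (phi f) + tau * g := by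
  obtain ⟨F, rfl⟩ := Ideal.Quotient.mk_surjective f
  have h1 : PowerSeries.X ∣ F - PowerSeries.C (PowerSeries.constantCoeff (R := RR T α β γ) F) := by
    rw [PowerSeries.X_dvd_iff]
    simp
  obtain ⟨G, hG⟩ := h1
  refine ⟨Ideal.Quotient.mk _ G, ?_⟩
  have h2 : phi (Ideal.Quotient.mk _ F : RP T α β γ) =
      PowerSeries.constantCoeff (R := RR T α β γ) F := by
    change Ideal.Quotient.lift _ _ _ (Ideal.Quotient.mk _ F) = _
    rw [Ideal.Quotient.lift_mk]
  rw [h2]
  change Ideal.Quotient.mk _ F = Ideal.Quotient.mk _ (PowerSeries.C _) +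
    Ideal.Quotient.mk _ PowerSeries.X * Ideal.Quotient.mk _ G
  rw [← map_mul, ← map_add, ← hG]
  congr 1
  ring

theorem phi_surjective : Function.Surjective (phi : RP T α β γ →+* RR T α β γ) :=
  fun u => ⟨toRP u, phi_toRP u⟩

/-- if `phi f = 0` then `s f = 0` -/
theorem s_mul_eq_zero {f : RP T α β γ} (h : phi f = 0) : toRP RR.s * f = 0 := by
  obtain ⟨g, hg⟩ := decompose f
  rw [h, map_zero, zero_add] at hg
  rw [hg, ← mul_assoc, s_tau, zero_mul]

section prime

variable (hP : (Ideal.span {α, β} : Ideal T).IsPrime) (hγ : γ ∉ (Ideal.span {α, β} : Ideal T))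

/-- the prime `q` of `RR` -/
def q (T : Type) [CommRing T] (α β γ : T) : Ideal (RR T α β γ) :=
  (Ideal.span {α, β} : Ideal T).comap rho

include hP in
theorem q_prime : (q T α β γ).IsPrime := Ideal.comap_isPrime _ _

include hγ in
theorem s_notMem_q : (RR.s : RR T α β γ) ∉ q T α β γ := fun h => hγ h

/-- the prime `Q` of `RP` -/
noncomputable def Q (T : Type) [CommRing T] (α β γ : T) : Ideal (RP T α β γ) :=
  (q T α β γ).comap phi

include hP in
theorem Q_prime : (Q T α β γ).IsPrime := by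
  haveI := q_prime hP (γ := γ)
  exact Ideal.comap_isPrime _ _

theorem phi_gens (i : Fin 7) : phi (gens (toRP (RR.x : RR T α β γ)) (toRP RR.y) (toRP RR.z)
    (toRP RR.w) (toRP RR.s) i) = gens (RR.x : RR T α β γ) RR.y RR.z RR.w RR.s i := by
  fin_cases i <;> simp [gens, phi_toRP]

theorem cP_le_Q : cP T α β γ ≤ Q T α β γ := by
  rw [cP, cI, Ideal.span_le]
  rintro _ ⟨i, rfl⟩
  change phi _ ∈ q T α β γ
  rw [phi_gens]
  exact rho_gens i

/-- the localization of `RR` at `q` as an algebra over `RP` -/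
noncomputable abbrev algL [(q T α β γ).IsPrime] : Algebra (RP T α β γ)
    (Localization.AtPrime (q T α β γ)) :=
  ((algebraMap (RR T α β γ) (Localization.AtPrime (q T α β γ))).comp phi).toAlgebra

include hγ in
theorem isLoc [(q T α β γ).IsPrime] [(Q T α β γ).IsPrime] :
    letI := algL (T := T) (α := α) (β := β) (γ := γ)
    IsLocalization.AtPrime (Localization.AtPrime (q T α β γ)) (Q T α β γ) := by
  letI := algL (T := T) (α := α) (β := β) (γ := γ)
  have hmap : ∀ f : RP T α β γ, algebraMap (RP T α β γ) (Localization.AtPrime (q T α β γ)) f =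
      algebraMap (RR T α β γ) (Localization.AtPrime (q T α β γ)) (phi f) := fun _ => rfl
  refine (isLocalization_iff _ _).2 ⟨?_, ?_, ?_⟩
  · rintro ⟨f, hf⟩
    rw [hmap]
    exact IsLocalization.map_units (Localization.AtPrime (q T α β γ))
      (⟨phi f, hf⟩ : (q T α β γ).primeCompl)
  · intro z
    obtain ⟨⟨r, u⟩, h⟩ := IsLocalization.surj (q T α β γ).primeCompl z
    refine ⟨⟨toRP r, ⟨toRP u.1, ?_⟩⟩, ?_⟩
    · change ¬ (phi (toRP u.1) ∈ q T α β γ)
      rw [phi_toRP]
      exact u.2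
    · rw [hmap, hmap]
      simp only
      rw [phi_toRP, phi_toRP]
      exact h
  · intro a b h
    rw [hmap, hmap] at h
    obtain ⟨u, hu⟩ := IsLocalization.exists_of_eq (M := (q T α β γ).primeCompl) h
    refine ⟨⟨toRP (RR.s * u.1), ?_⟩, ?_⟩
    · change ¬ (phi (toRP (RR.s * u.1)) ∈ q T α β γ)
      rw [phi_toRP]
      exact Submonoid.mul_mem (q T α β γ).primeCompl (s_notMem_q hγ) u.2
    · change toRP (RR.s * u.1) * a = toRP (RR.s * u.1) * b
      have h1 : toRP RR.s * (toRP u.1 * (a - b)) = 0 := by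
        apply s_mul_eq_zero
        rw [map_mul, phi_toRP, map_sub, mul_sub, hu, sub_self]
      rw [map_mul, ← sub_eq_zero, ← h1]
      ring

end prime

section main

variable [IsLocalRing T] [IsNoetherianRing T] [IsDomain T]

theorem height_q (hB : Base T α β γ) [(q T α β γ).IsPrime] : (q T α β γ).height ≤ 2 := by
  obtain ⟨hα, hβ, hγ⟩ := mem_max hB
  haveI hloc : IsLocalRing (RR T α β γ) := Pool.Agent.H607R3.PS.taskLoc T α β γ hα hβ hγ
  have hs : (RR.s : RR T α β γ) ∈ maximalIdeal (RR T α β γ) := by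
    rw [mem_maximalIdeal, mem_nonunits_iff]
    intro hu
    have h1 : IsUnit (rho (RR.s : RR T α β γ)) := hu.map rho
    exact (mem_maximalIdeal γ).1 hγ h1
  have hlt : q T α β γ < maximalIdeal (RR T α β γ) := by
    refine lt_of_le_of_ne (le_maximalIdeal (Ideal.IsPrime.ne_top inferInstance)) ?_
    intro h
    apply s_notMem_q hB.notMem
    rw [h]
    exact hs
  have h1 := Ideal.height_add_one_le_of_lt_of_isPrime hlt
  have h2 : ((maximalIdeal (RR T α β γ)).height : WithBot ℕ∞) ≤ 3 :=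
    Ideal.height_le_ringKrullDim_of_isPrime.trans (dimR hB)
  have h3 : (maximalIdeal (RR T α β γ)).height ≤ 3 := WithBot.coe_le_coe.1 h2
  have h4 : (q T α β γ).height + 1 ≤ 2 + 1 := h1.trans (h3.trans (by norm_num))
  exact (ENat.add_le_add_iff_right (by simp)).1 h4

theorem taskGradeP : TaskGradeP := by
  intro T _ _ _ _ α β γ hB
  haveI h1 := q_prime hB.prime2 (γ := γ)
  haveI h2 := Q_prime hB.prime2 (γ := γ)
  rintro ⟨rs, hlen, hmem, hreg⟩
  letI := algL (T := T) (α := α) (β := β) (γ := γ)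
  haveI := isLoc (T := T) (α := α) (β := β) hB.notMem
  have h3 : RingTheory.Sequence.IsRegular (Localization.AtPrime (q T α β γ))
      (rs.map (algebraMap (RP T α β γ) (Localization.AtPrime (q T α β γ)))) :=
    hreg.isRegular_of_isLocalization_of_mem (Localization.AtPrime (q T α β γ)) (Q T α β γ)
      fun r hr => cP_le_Q (hmem r hr)
  have h4 := ringKrullDim_add_length_eq_ringKrullDim_of_isRegular _ h3
  rw [List.length_map, hlen,
    IsLocalization.AtPrime.ringKrullDim_eq_height (q T α β γ)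
      (Localization.AtPrime (q T α β γ))] at h4
  have h5 : ((q T α β γ).height : WithBot ℕ∞) ≤ 2 := WithBot.coe_le_coe.2 (height_q hB)
  have h6 : (0 : WithBot ℕ∞) ≤ ringKrullDim (Localization.AtPrime (q T α β γ) ⧸
      Ideal.ofList (rs.map (algebraMap (RP T α β γ) (Localization.AtPrime (q T α β γ))))) := by
    have : Nontrivial (Localization.AtPrime (q T α β γ) ⧸
      Ideal.ofList (rs.map (algebraMap (RP T α β γ) (Localization.AtPrime (q T α β γ))))) := by
      rw [Ideal.Quotient.nontrivial_iff]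
      intro h
      apply h3.2
      rw [h]
      simp
    exact ringKrullDim_nonneg_of_nontrivial
  have h7 : (3 : WithBot ℕ∞) ≤ 2 := by
    calc (3 : WithBot ℕ∞) = 0 + 3 := (zero_add _).symm
      _ ≤ _ := add_le_add h6 (le_refl (3 : WithBot ℕ∞))
      _ = _ := by rw [← h4]; norm_cast
      _ ≤ 2 := h5
  exact absurd (by exact_mod_cast h7 : (3 : ℕ) ≤ 2) (by decide)

theorem dimRP_ge (hB : Base T α β γ) : (4 : WithBot ℕ∞) ≤ ringKrullDim (RP T α β γ) := by
  have h1 := dimA hB
  have h2 := ringKrullDim_succ_le_ringKrullDim_powerseries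
    (R := RR T α β γ ⧸ (Ideal.span {RR.s} : Ideal (RR T α β γ)))
  have h3 : ringKrullDim (PowerSeries (RR T α β γ ⧸ (Ideal.span {RR.s} : Ideal (RR T α β γ)))) ≤
      ringKrullDim (RP T α β γ) := by
    refine ringKrullDim_le_of_surjective (Ideal.Quotient.lift _
      (PowerSeries.map (Ideal.Quotient.mk (Ideal.span {RR.s} : Ideal (RR T α β γ)))) ?_) ?_
    · intro f hf
      rw [Ideal.mem_span_singleton] at hf
      obtain ⟨c, rfl⟩ := hf
      have h0 : Ideal.Quotient.mk (Ideal.span {RR.s} : Ideal (RR T α β γ)) RR.s = 0 := by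
        rw [Ideal.Quotient.eq_zero_iff_mem]
        exact Ideal.mem_span_singleton_self _
      rw [map_mul, map_mul, PowerSeries.map_C, h0, map_zero, zero_mul, zero_mul]
    · refine Ideal.Quotient.lift_surjective_of_surjective _ _ ?_
      exact PowerSeries.map_surjective _ Ideal.Quotient.mk_surjective
  calc (4 : WithBot ℕ∞) = 3 + 1 := by norm_num
    _ ≤ _ := add_le_add h1 le_rfl
    _ ≤ _ := h2
    _ ≤ _ := h3

/-- a prime of `RP` containing `cP` and `t + s` is maximal -/
theorem prime_max (hB : Base T α β γ) (P : Ideal (RP T α β γ)) [hP : P.IsPrime]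
    (h1 : cP T α β γ ≤ P) (h2 : tau + toRP RR.s ∈ P) : P.IsMaximal := by
  have g : ∀ i : Fin 7, gens (toRP (RR.x : RR T α β γ)) (toRP RR.y) (toRP RR.z)
    (toRP RR.w) (toRP RR.s) i ∈ P := fun i => h1 (Ideal.subset_span ⟨i, rfl⟩)
  have hs : (toRP RR.s : RP T α β γ) ∈ P := by
    apply hP.mem_of_pow_mem 2
    have h3 : (toRP RR.s : RP T α β γ) ^ 2 = toRP RR.s * (tau + toRP RR.s) - toRP RR.s * tau := by
      ring
    rw [h3, s_tau, sub_zero]
    exact Ideal.mul_mem_left _ _ h2
  have ht : (tau : RP T α β γ) ∈ P := by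
    have h3 : (tau : RP T α β γ) = (tau + toRP RR.s) - toRP RR.s := by ring
    rw [h3]
    exact Ideal.sub_mem _ h2 hs
  have hy : (toRP RR.y : RP T α β γ) ∈ P := hP.mem_of_pow_mem 3 (g 0)
  have hz : (toRP RR.z : RP T α β γ) ∈ P := hP.mem_of_pow_mem 2 (g 1)
  have hx : (toRP RR.x : RP T α β γ) ∈ P := by
    apply hP.mem_of_pow_mem 2
    have h3 : (toRP RR.x : RP T α β γ) ^ 2 + toRP RR.s ^ 2 * toRP RR.z ∈ P := g 3
    have h4 : (toRP RR.x : RP T α β γ) ^ 2 = (toRP RR.x ^ 2 + toRP RR.s ^ 2 * toRP RR.z) -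
      toRP RR.s ^ 2 * toRP RR.z := by ring
    rw [h4]
    exact Ideal.sub_mem _ h3 (Ideal.mul_mem_left _ _ hz)
  have hw : (toRP RR.w : RP T α β γ) ∈ P := by
    apply hP.mem_of_pow_mem 4
    have h3 : (toRP RR.w : RP T α β γ) ^ 4 + toRP RR.s * toRP RR.y * toRP RR.z ∈ P := g 4
    have h4 : (toRP RR.w : RP T α β γ) ^ 4 = (toRP RR.w ^ 4 +
      toRP RR.s * toRP RR.y * toRP RR.z) - toRP RR.s * toRP RR.y * toRP RR.z := by ring
    rw [h4]
    exact Ideal.sub_mem _ h3 (Ideal.mul_mem_left _ _ hz)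
  have hα : (toRP (RR.emb α) : RP T α β γ) ∈ P := by
    rw [← RR.x_sub_y, map_sub]
    exact Ideal.sub_mem _ hx hy
  have hβ : (toRP (RR.emb β) : RP T α β γ) ∈ P := by
    rw [← RR.z_eq]
    exact hz
  have hγ : (toRP (RR.emb γ) : RP T α β γ) ∈ P := by
    rw [← RR.s_add_w, map_add]
    exact Ideal.add_mem _ hs hw
  have hmax : ∀ t ∈ maximalIdeal T, (toRP (RR.emb t) : RP T α β γ) ∈ P := by
    have h3 : maximalIdeal T ≤ P.comap ((toRP : RR T α β γ →+* RP T α β γ).comp RR.emb) := by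
      rw [hB.max, Ideal.span_le]
      rintro t (rfl | rfl | rfl)
      · exact hα
      · exact hβ
      · exact hγ
    exact fun t h => h3 h
  rw [Ideal.isMaximal_iff]
  refine ⟨fun h => hP.ne_top ((Ideal.eq_top_iff_one _).2 h), ?_⟩
  intro J f hPJ hf hfJ
  obtain ⟨e, he⟩ := decompose f
  have h5 := RR.decomp (phi f)
  set a := (phi f).a with ha
  have h6 : f - toRP (RR.emb a) ∈ P := by
    have h7 : f - toRP (RR.emb a) = toRP (RR.emb (phi f).b) * toRP RR.x +
        toRP (RR.emb (phi f).c) * toRP RR.w + tau * e := by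
      conv_lhs => rw [he, h5]
      rw [map_add, map_add, map_mul, map_mul]
      ring
    rw [h7]
    exact Ideal.add_mem _ (Ideal.add_mem _ (Ideal.mul_mem_left _ _ hx)
      (Ideal.mul_mem_left _ _ hw)) (Ideal.mul_mem_right _ _ ht)
  have h7 : IsUnit a := by
    by_contra hcon
    apply hf
    have h8 := hmax a ((mem_maximalIdeal a).2 hcon)
    have h9 : f = (f - toRP (RR.emb a)) + toRP (RR.emb a) := by ring
    rw [h9]
    exact Ideal.add_mem _ h6 h8
  have h8 : (toRP (RR.emb a) : RP T α β γ) ∈ J := by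
    have h9 : (toRP (RR.emb a) : RP T α β γ) = f - (f - toRP (RR.emb a)) := by ring
    rw [h9]
    exact Ideal.sub_mem _ hfJ (hPJ h6)
  have h9 : IsUnit (toRP (RR.emb a) : RP T α β γ) :=
    h7.map ((toRP : RR T α β γ →+* RP T α β γ).comp RR.emb)
  rw [← Ideal.eq_top_iff_one]
  exact Ideal.eq_top_of_isUnit_mem _ h8 h9

theorem dim_le_one {B : Type} [CommRing B] [IsNoetherianRing B] [IsLocalRing B] (θ : B)
    (hθ : θ ∈ maximalIdeal B) (h : ∀ P : Ideal B, P.IsPrime → θ ∈ P → P.IsMaximal) :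
    ringKrullDim B ≤ 1 := by
  have h1 : maximalIdeal B ∈ (Ideal.span {θ} : Ideal B).minimalPrimes := by
    refine ⟨⟨inferInstance, ?_⟩, ?_⟩
    · rw [Ideal.span_singleton_le_iff_mem]
      exact hθ
    · rintro P ⟨hP, hP2⟩ hle
      have h2 := h P hP (hP2 (Ideal.mem_span_singleton_self θ))
      exact (eq_maximalIdeal h2).ge
  have h2 := Ideal.height_le_one_of_isPrincipal_of_mem_minimalPrimes _ _ h1
  rw [← maximalIdeal_height_eq_ringKrullDim]
  exact WithBot.coe_le_coe.2 h2

theorem dimM_le (hB : Base T α β γ) : ringKrullDim (RP T α β γ ⧸ cP T α β γ) ≤ 1 := by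
  obtain ⟨hα, hβ, hγ⟩ := mem_max hB
  haveI hloc : IsLocalRing (RR T α β γ) := Pool.Agent.H607R3.PS.taskLoc T α β γ hα hβ hγ
  haveI hloc2 : IsLocalRing (RP T α β γ) := local_RP
  haveI hnt : Nontrivial (RP T α β γ ⧸ cP T α β γ) :=
    Ideal.Quotient.nontrivial_iff.2 (cP_ne_top hα hβ hγ)
  haveI hloc3 : IsLocalRing (RP T α β γ ⧸ cP T α β γ) :=
    IsLocalRing.of_surjective' (Ideal.Quotient.mk _) Ideal.Quotient.mk_surjective
  set θ : RP T α β γ ⧸ cP T α β γ := Ideal.Quotient.mk _ (tau + toRP RR.s) with hθ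
  have hθm : θ ∈ maximalIdeal (RP T α β γ ⧸ cP T α β γ) := by
    rw [mem_maximalIdeal, mem_nonunits_iff]
    intro hu
    have hle : cP T α β γ ≤ Q T α β γ := cP_le_Q
    -- map to the residue field
    have h1 : IsUnit (tau + toRP RR.s : RP T α β γ) := by
      by_contra hcon
      have h2 : (tau + toRP RR.s : RP T α β γ) ∈ maximalIdeal (RP T α β γ) :=
        (mem_maximalIdeal _).2 hcon
      have h3 : cP T α β γ ≤ maximalIdeal (RP T α β γ) := le_maximalIdeal (cP_ne_top hα hβ hγ)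
      obtain ⟨v, hv⟩ := hu.exists_right_inv
      obtain ⟨v, rfl⟩ := Ideal.Quotient.mk_surjective v
      rw [hθ, ← map_mul, ← map_one (Ideal.Quotient.mk (cP T α β γ)), Ideal.Quotient.eq] at hv
      have h4 := h3 hv
      have h5 : (1 : RP T α β γ) ∈ maximalIdeal (RP T α β γ) := by
        have h6 : (1 : RP T α β γ) = (tau + toRP RR.s) * v - ((tau + toRP RR.s) * v - 1) := by ring
        rw [h6]
        exact Ideal.sub_mem _ (Ideal.mul_mem_right _ _ h2) h4
      exact (Ideal.ne_top_iff_one _).1 (maximalIdeal.isMaximal _).ne_top h5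
    have h2 : IsUnit (rho (phi (tau + toRP RR.s : RP T α β γ))) := (h1.map phi).map rho
    rw [map_add, phi_tau, phi_toRP, zero_add] at h2
    exact (mem_maximalIdeal γ).1 hγ h2
  refine dim_le_one θ hθm fun I hI hθI => ?_
  haveI hp : (I.comap (Ideal.Quotient.mk (cP T α β γ))).IsPrime := Ideal.comap_isPrime _ _
  have h4 : (I.comap (Ideal.Quotient.mk (cP T α β γ))).IsMaximal := by
    refine prime_max hB _ ?_ ?_
    · intro f hf
      rw [Ideal.mem_comap, Ideal.Quotient.eq_zero_iff_mem.2 hf]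
      exact zero_mem _
    · exact hθI
  have h5 := Ideal.map_comap_of_surjective (Ideal.Quotient.mk (cP T α β γ))
    Ideal.Quotient.mk_surjective I
  rcases Ideal.map_eq_top_or_isMaximal_of_surjective (Ideal.Quotient.mk (cP T α β γ))
    Ideal.Quotient.mk_surjective h4 with h6 | h6
  · rw [h5] at h6
    exact absurd h6 hI.ne_top
  · rw [h5] at h6
    exact h6

theorem taskDimP : TaskDimP := by
  intro T _ _ _ _ α β γ hB
  calc (2 : WithBot ℕ∞) + ringKrullDim (RP T α β γ ⧸ cP T α β γ) ≤ 2 + 1 :=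
        add_le_add le_rfl (dimM_le hB)
    _ < 4 := by
      have : (2 : WithBot ℕ∞) + 1 = 3 := by norm_num
      rw [this]
      exact_mod_cast (by decide : (3 : ℕ) < 4)
    _ ≤ _ := dimRP_ge hB

end main

end Pool.Agent.N38.GradeP
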