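import Mathlib
import Pool.Agent.N580.NS.Stm2

/-!
# The certificate for central products
-/

set_option autoImplicit false

open Module Finset Pool.Agent.N580 Pool.Agent.N580.NS

namespace Pool.Agent.N38.NSCERT

section Abs

variable {K A ι : Type} [Field K] [Ring A] [Algebra K A] [DecidableEq ι] {R : ι → Type}
  [∀ i, Ring (R i)] [∀ i, Algebra K (R i)] (F : ∀ i, R i →ₐ[K] A)
  (hF : ∀ i j, i ≠ j → ∀ x y, Commute (F i x) (F j y))

/-- the product of the images, over a finite set of indices -/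
noncomputable def Phi (s : Finset ι) (y : ∀ i, R i) : A :=
  s.noncommProd (fun i => F i (y i)) (fun i _ j _ h => hF i j h _ _)

theorem Phi_empty (y : ∀ i, R i) : Phi F hF ∅ y = 1 := Finset.noncommProd_empty _ _

theorem Phi_insert {a : ι} {s : Finset ι} (ha : a ∉ s) (y : ∀ i, R i) :
    Phi F hF (insert a s) y = F a (y a) * Phi F hF s y :=
  Finset.noncommProd_insert_of_notMem _ _ _ _ ha

theorem Phi_congr (s : Finset ι) {y y' : ∀ i, R i} (h : ∀ i ∈ s, y i = y' i) :
    Phi F hF s y = Phi F hF s y' :=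
  Finset.noncommProd_congr rfl (fun i hi => by rw [h i hi]) _

theorem Phi_mul (s : Finset ι) (x y : ∀ i, R i) :
    Phi F hF s x * Phi F hF s y = Phi F hF s (x * y) := by
  have := Finset.noncommProd_mul_distrib (s := s) (fun i => F i (x i)) (fun i => F i (y i))
    (fun i _ j _ h => hF i j h _ _) (fun i _ j _ h => hF i j h _ _)
    (fun i _ j _ h => hF i j h _ _)
  rw [Phi, Phi, ← this, Phi]
  exact Finset.noncommProd_congr rfl (fun i _ => by simp) _

theorem Phi_fix (s : Finset ι) (y : ∀ i, R i) (e : A) (h : ∀ i, F i (y i) * e = e) :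
    Phi F hF s y * e = e := by
  induction s using Finset.induction_on with
  | empty => rw [Phi_empty, one_mul]
  | insert a s ha ih => rw [Phi_insert F hF ha, mul_assoc, ih, h a]

theorem Phi_span (Z : Submonoid A) (hZ : ∀ z ∈ Z, ∀ x, z * x = x * z) (S T : ∀ i, Set (R i))
    (hT : ∀ i, ∀ t ∈ T i, F i t ∈ Z) (s : Finset ι) (y : ∀ i, R i)
    (hy : ∀ i ∈ s, y i ∈ Submodule.span K {x | ∃ c ∈ S i, ∃ t ∈ T i, x = c * t}) :
    Phi F hF s y ∈ Submodule.span K {x | ∃ c : ∀ i, R i, (∀ i ∈ s, c i ∈ S i) ∧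
      ∃ z ∈ Z, x = Phi F hF s c * z} := by
  induction s using Finset.induction_on with
  | empty =>
    refine Submodule.subset_span ⟨0, by simp, 1, Z.one_mem, ?_⟩
    rw [Phi_empty, Phi_empty, mul_one]
  | insert a s ha ih =>
    have h1 := ih (fun i hi => hy i (mem_insert_of_mem hi))
    have h2 := hy a (mem_insert_self a s)
    have h3 : F a (y a) ∈ Submodule.span K (F a '' {x | ∃ c ∈ S a, ∃ t ∈ T a, x = c * t}) := by
      have := Submodule.mem_map_of_mem (f := (F a).toLinearMap) h2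
      rw [Submodule.map_span] at this
      exact this
    rw [Phi_insert F hF ha]
    have h4 := Submodule.mul_mem_mul h3 h1
    rw [Submodule.span_mul_span] at h4
    refine Submodule.span_mono ?_ h4
    rintro _ ⟨_, ⟨_, ⟨c, hc, t, ht, rfl⟩, rfl⟩, _, ⟨c', hc', z, hz, rfl⟩, rfl⟩
    refine ⟨Function.update c' a c, ?_, F a t * z, Z.mul_mem (hT a t ht) hz, ?_⟩
    · intro i hi
      by_cases hia : i = a
      · subst hia
        simpa using hc
      · rw [Function.update_of_ne hia]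
        exact hc' i (mem_of_mem_insert_of_ne hi hia)
    · rw [Phi_insert F hF ha, Function.update_self,
        Phi_congr F hF s (y := Function.update c' a c) (y' := c')
          (fun i hi => by rw [Function.update_of_ne (ne_of_mem_of_not_mem hi ha)])]
      simp only [map_mul]
      rw [mul_assoc, mul_assoc, ← mul_assoc (F a t), hZ _ (hT a t ht) (Phi F hF s c'), mul_assoc]

theorem Phi_mem (W : ℕ → Submodule K A) (h0 : W 0 = ⊤) (hm : ∀ k l, W k * W l ≤ W (k + l))
    (O : Finset ι) (y : ∀ i, R i) (hO : ∀ i ∈ O, F i (y i) ∈ W 1) (s : Finset ι) :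
    Phi F hF s y ∈ W (s ∩ O).card := by
  induction s using Finset.induction_on with
  | empty =>
    rw [Finset.empty_inter, Finset.card_empty, h0]
    exact Submodule.mem_top
  | insert a s ha ih =>
    rw [Phi_insert F hF ha]
    by_cases haO : a ∈ O
    · rw [Finset.insert_inter_of_mem haO, Finset.card_insert_of_notMem (by simp [ha]),
        add_comm]
      exact hm _ _ (Submodule.mul_mem_mul (hO a haO) ih)
    · rw [Finset.insert_inter_of_notMem haO]
      have := hm 0 _ (Submodule.mul_mem_mul (h0 ▸ Submodule.mem_top : F a (y a) ∈ W 0) ih)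
      rwa [Nat.zero_add] at this

end Abs

section Block

variable {K : Type} [Field K] {ι : Type} [Fintype ι] [DecidableEq ι] {E : Type} [Group E]
  {Λ : ι → Type} [∀ i, Group (Λ i)] (π : (∀ i, Λ i) →* E)

/-- the homomorphism of group algebras of one factor -/
noncomputable def Fm (K : Type) [Field K] (i : ι) :
    MonoidAlgebra K (Λ i) →ₐ[K] MonoidAlgebra K E := mp K (π.comp (MonoidHom.mulSingle Λ i))

theorem Fm_gr (i : ι) (g : Λ i) : Fm π K i (gr K g) = gr K (π (Pi.mulSingle i g)) := by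
  rw [Fm, mp_gr]
  rfl

theorem Fm_comm (i j : ι) (h : i ≠ j) (x : MonoidAlgebra K (Λ i)) (y : MonoidAlgebra K (Λ j)) :
    Commute (Fm π K i x) (Fm π K j y) := by
  induction x using MonoidAlgebra.induction_on with
  | of g =>
    induction y using MonoidAlgebra.induction_on with
    | of g' =>
      change Commute (Fm π K i (gr K g)) (Fm π K j (gr K g'))
      rw [Fm_gr, Fm_gr]
      exact ((Pi.mulSingle_commute h g g').map π).map (MonoidAlgebra.of K E)
    | add f g hf hg => rw [map_add]; exact hf.add_right hg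
    | smul r f hf => rw [map_smul]; exact hf.smul_right r
  | add f g hf hg => rw [map_add]; exact hf.add_left hg
  | smul r f hf => rw [map_smul]; exact hf.smul_left r

theorem Phi_gr (g : ∀ i, Λ i) :
    Phi (Fm π K) (Fm_comm π) univ (fun i => gr K (g i)) = gr K (π g) := by
  have h := Finset.map_noncommProd univ (fun i => (Pi.mulSingle i (g i) : ∀ i, Λ i))
    (fun i _ j _ _ => Pi.mulSingle_apply_commute g i j) ((MonoidAlgebra.of K E).comp π)
  have h2 : (univ.noncommProd (fun i => (Pi.mulSingle i (g i) : ∀ i, Λ i))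
    fun i _ j _ _ => Pi.mulSingle_apply_commute g i j) = g := Finset.noncommProd_mulSingle g
  rw [h2] at h
  change _ = ((MonoidAlgebra.of K E).comp π) g
  rw [h, Phi]
  exact Finset.noncommProd_congr rfl (fun i _ => Fm_gr π i (g i)) _

theorem ps_central (hπ : Function.Surjective π) {P : ∀ i, Subgroup (Λ i)}
    (hP : ∀ i, P i ≤ Subgroup.center (Λ i)) :
    (Subgroup.pi Set.univ P).map π ≤ Subgroup.center E := by
  rintro _ ⟨x, hx, rfl⟩
  rw [Subgroup.mem_center_iff]
  intro g
  obtain ⟨y, rfl⟩ := hπ g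
  rw [← map_mul, ← map_mul]
  congr 1
  funext i
  exact (Subgroup.mem_center_iff.1 (hP i (hx i (Set.mem_univ i))) (y i))

theorem gr_central {x : E} (hx : x ∈ Subgroup.center E) (y : MonoidAlgebra K E) :
    gr K x * y = y * gr K x := by
  induction y using MonoidAlgebra.induction_on with
  | of g =>
    change gr K x * gr K g = gr K g * gr K x
    rw [← gr_mul, ← gr_mul, Subgroup.mem_center_iff.1 hx g]
  | add f g hf hg => rw [mul_add, add_mul, hf, hg]
  | smul r f hf => rw [mul_smul_comm, smul_mul_assoc, hf]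

theorem single_mem {P : ∀ i, Subgroup (Λ i)} (i : ι) {z : Λ i} (hz : z ∈ P i) :
    π (Pi.mulSingle i z) ∈ (Subgroup.pi Set.univ P).map π := by
  refine ⟨Pi.mulSingle i z, ?_, rfl⟩
  intro j _
  by_cases h : j = i
  · subst h
    simpa using hz
  · simp only [Pi.mulSingle_eq_of_ne h]
    exact (P j).one_mem

theorem card_ne {p : ℕ} [Fact p.Prime] [CharP K p] [∀ i, Finite (Λ i)]
    (Q : ∀ i, Subgroup (Λ i)) (hQ : ∀ i, ¬ p ∣ Nat.card (Q i)) :
    (Nat.card ((Subgroup.pi Set.univ Q).map π) : K) ≠ 0 := by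
  have hp : p.Prime := Fact.out
  rw [Ne, CharP.cast_eq_zero_iff K p]
  intro h
  have h1 : Nat.card ((Subgroup.pi Set.univ Q).map π) ∣ Nat.card (Subgroup.pi Set.univ Q) :=
    Subgroup.card_map_dvd _ _
  have h2 : Nat.card (Subgroup.pi Set.univ Q) = ∏ i, Nat.card (Q i) := by
    rw [← Nat.card_pi]
    refine Nat.card_congr ?_
    exact {
      toFun := fun x i => ⟨x.1 i, x.2 i (Set.mem_univ i)⟩
      invFun := fun y => ⟨fun i => y i, fun i _ => (y i).2⟩
      left_inv := fun x => rfl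
      right_inv := fun y => rfl }
  rw [h2] at h1
  obtain ⟨i, _, hi⟩ := (Prime.dvd_finsetProd_iff hp.prime _).1 (h.trans h1)
  exact hQ i hi

theorem block (h2 : ALG2) (h3 : IDE) {p : ℕ} [Fact p.Prime] [CharP K p] [Finite E]
    [∀ i, Finite (Λ i)] (n : ι → ℕ) (P Q : ∀ i, Subgroup (Λ i)) (hπ : Function.Surjective π)
    (hP : ∀ i, P i ≤ Subgroup.center (Λ i)) (hQ : ∀ i, Q i ≤ Subgroup.center (Λ i))
    (hPp : ∀ i, IsPGroup p (P i)) (hQp : ∀ i, ¬ p ∣ Nat.card (Q i))
    (hcard : ∀ i, Nat.card (Λ i) = n i * Nat.card (P i) * Nat.card (Q i))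
    (hn : ∀ i, p ∣ n i) (L : ℕ) (hL : aug K ((Subgroup.pi Set.univ P).map π) ^ L = ⊥)
    (lam : (Subgroup.pi Set.univ Q).map π →* Kˣ) :
    ∃ (m : ι → ℕ) (B : (∀ i, Fin (m i)) → MonoidAlgebra K E) (w : ∀ i, Fin (m i) → ℕ),
      (∀ x : MonoidAlgebra K E, x * ide K _ lam ∈ Submodule.span K
        {x | ∃ j, ∃ z ∈ (Subgroup.pi Set.univ P).map π, x = B j * gr K z * ide K _ lam}) ∧
      (∀ j j' j'', L ≤ (univ.filter fun i => 3 < w i (j i) + w i (j' i) + w i (j'' i)).card →
        B j * B j' * B j'' = 0) ∧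
      (∀ i j, w i j ≤ 3) ∧ (∀ i, ∑ j, ((4 : ℝ) / 5) ^ (w i j) ≤ 4 / 5 * ((n i : ℝ) - 11 / 100)) := by
  have hp : p.Prime := Fact.out
  have hmem : ∀ i (q : Q i), π (Pi.mulSingle i (q : Λ i)) ∈ (Subgroup.pi Set.univ Q).map π :=
    fun i q => single_mem π i q.2
  -- the characters of the factors
  let χ : ∀ i, Q i →* Kˣ := fun i =>
    lam.comp ((π.comp ((MonoidHom.mulSingle Λ i).comp (Q i).subtype)).codRestrict _ (hmem i))
  have hQQ := card_ne (K := K) (p := p) π Q hQp
  have hQi : ∀ i, (Nat.card (Q i) : K) ≠ 0 := by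
    intro i
    rw [Ne, CharP.cast_eq_zero_iff K p]
    exact hQp i
  choose m b w hb hw hw3 hws using fun i =>
    h2 p K (Λ i) (P i) (Q i) (hP i) (hQ i) (hPp i) (hQp i) (n i) (hcard i) (hn i) (χ i)
  set PP := (Subgroup.pi Set.univ P).map π with hPP
  set e := ide K _ lam with he
  have hPc : PP ≤ Subgroup.center E := ps_central π hπ hP
  have hPn : PP.Normal := ⟨fun x hx g => by
    rw [Subgroup.mem_center_iff.1 (hPc hx) g, mul_inv_cancel_right]
    exact hx⟩
  -- the idempotents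
  have hfix : ∀ i, Fm π K i (ide K (Q i) (χ i)) * e = e := by
    intro i
    exact h3.2 K (Λ i) E (π.comp (MonoidHom.mulSingle Λ i)) (Q i) _ (χ i) lam (hQi i) hQQ
      (fun q => ⟨hmem i q, rfl⟩)
  refine ⟨m, fun j => Phi (Fm π K) (Fm_comm π) univ (fun i => b i (j i)), w, ?_, ?_, hw3, hws⟩
  · -- spanning
    intro x
    induction x using MonoidAlgebra.induction_on with
    | add f g hf hg => rw [add_mul]; exact add_mem hf hg
    | smul r f hf => rw [smul_mul_assoc]; exact Submodule.smul_mem _ _ hf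
    | of g =>
      obtain ⟨g, rfl⟩ := hπ g
      change gr K (π g) * e ∈ _
      have h5 := Phi_fix (Fm π K) (Fm_comm π) univ (fun i => ide K (Q i) (χ i)) e hfix
      have h5' : gr K (π g) * e = gr K (π g) *
          (Phi (Fm π K) (Fm_comm π) univ (fun i => ide K (Q i) (χ i)) * e) := by rw [h5]
      rw [h5', ← mul_assoc, ← Phi_gr, Phi_mul]
      have h6 := Phi_span (K := K) (Fm π K) (Fm_comm π) (PP.toSubmonoid.map (MonoidAlgebra.of K E))
        (by
          rintro _ ⟨z, hz, rfl⟩ x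
          exact gr_central (hPc hz) x)
        (fun i => Set.range (b i)) (fun i => {x | ∃ z ∈ P i, x = gr K z})
        (by
          rintro i _ ⟨z, hz, rfl⟩
          rw [Fm_gr]
          exact ⟨_, single_mem π i hz, rfl⟩)
        univ ((fun i => gr K (g i)) * fun i => ide K (Q i) (χ i))
        (by
          intro i _
          refine Submodule.span_mono ?_ (hb i (gr K (g i)))
          rintro _ ⟨j, z, hz, rfl⟩
          exact ⟨b i j, ⟨j, rfl⟩, _, ⟨z, hz, rfl⟩, rfl⟩)
      have h7 := Submodule.mul_mem_mul h6 (Submodule.mem_span_singleton_self e (R := K))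
      rw [Submodule.span_mul_span] at h7
      refine Submodule.span_mono ?_ h7
      rintro _ ⟨_, ⟨c, hc, _, ⟨z, hz, rfl⟩, rfl⟩, _, rfl, rfl⟩
      choose j hj using fun i => hc i (mem_univ i)
      refine ⟨j, z, hz, ?_⟩
      simp only [hj]
  · -- products which vanish
    intro j j' j'' hO
    simp only [Phi_mul]
    set O := univ.filter fun i => 3 < w i (j i) + w i (j' i) + w i (j'' i) with hOdef
    have h8 := Phi_mem (Fm π K) (Fm_comm π) (JJ K PP) (JJ_zero PP) (JJ_mul hPn) O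
      ((fun i => b i (j i)) * (fun i => b i (j' i)) * (fun i => b i (j'' i))) ?_ univ
    · rw [Finset.univ_inter] at h8
      have h9 := JJ_anti PP hO h8
      rw [JJ, hL, Submodule.mul_bot, Submodule.mem_bot] at h9
      exact h9
    · intro i hi
      rw [hOdef, mem_filter] at hi
      have h10 := hw i (j i) (j' i) (j'' i) hi.2
      have h11 := Submodule.mem_map_of_mem (f := (Fm π K i).toLinearMap) h10
      rw [Submodule.map_span] at h11
      change Fm π K i (b i (j i) * b i (j' i) * b i (j'' i)) ∈ _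
      refine (Submodule.span_le.2 ?_ : _ ≤ _) h11
      rintro _ ⟨_, ⟨z, hz, g, rfl⟩, rfl⟩
      have h12 : (Fm π K i).toLinearMap ((MonoidAlgebra.of K (Λ i) z - 1) * MonoidAlgebra.of K (Λ i) g)
          = Fm π K i (gr K g) * (gr K (π (Pi.mulSingle i z)) - 1) := by
        change Fm π K i _ = _
        rw [map_mul, map_sub, map_one]
        have h13 : Fm π K i (MonoidAlgebra.of K (Λ i) z) = gr K (π (Pi.mulSingle i z)) := Fm_gr π i z
        rw [h13]
        change _ * Fm π K i (gr K g) = _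
        rw [sub_mul, mul_sub, gr_central (hPc (single_mem π i hz)), one_mul, mul_one]
      rw [h12]
      change _ ∈ JJ K PP 1
      rw [JJ, pow_one]
      exact Submodule.mul_mem_mul Submodule.mem_top
        (Submodule.subset_span ⟨_, single_mem π i hz, rfl⟩)

end Block

theorem count {ι : Type} [Fintype ι] [DecidableEq ι] (n : ι → ℕ) (m : ι → ℕ)
    (w : ∀ i, Fin (m i) → ℕ)
    (hws : ∀ i, ∑ j, ((4 : ℝ) / 5) ^ (w i j) ≤ 4 / 5 * ((n i : ℝ) - 11 / 100)) (L : ℕ) :
    ((univ.filter fun j : ∀ i, Fin (m i) =>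
      ∑ i, w i (j i) ≤ Fintype.card ι + 2 * L).card : ℝ) ≤
      (5 / 4) ^ (2 * L) * ∏ i, ((n i : ℝ) - 11 / 100) := by
  have h1 : ((univ.filter fun j : ∀ i, Fin (m i) =>
      ∑ i, w i (j i) ≤ Fintype.card ι + 2 * L).card : ℝ) ≤
      ∑ j : ∀ i, Fin (m i), (5 / 4 : ℝ) ^ (Fintype.card ι + 2 * L) *
        (4 / 5 : ℝ) ^ (∑ i, w i (j i)) := by
    rw [card_filter]
    push_cast
    refine sum_le_sum fun j _ => ?_
    split_ifs with h
    · obtain ⟨d, hd⟩ := Nat.exists_eq_add_of_le h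
      rw [hd, pow_add, mul_right_comm, ← mul_pow]
      norm_num
      exact one_le_pow₀ (by norm_num)
    · positivity
  have h2 : ∑ j : ∀ i, Fin (m i), (4 / 5 : ℝ) ^ (∑ i, w i (j i)) =
      ∏ i, ∑ j, (4 / 5 : ℝ) ^ (w i j) := by
    rw [Fintype.prod_sum]
    exact sum_congr rfl fun j _ => (prod_pow_eq_pow_sum _ _ _).symm
  have h3 : ∏ i, ∑ j, (4 / 5 : ℝ) ^ (w i j) ≤ ∏ i, (4 / 5 * ((n i : ℝ) - 11 / 100)) :=
    prod_le_prod (fun i _ => sum_nonneg fun j _ => by positivity) fun i _ => hws i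
  rw [prod_mul_distrib, prod_const, card_univ] at h3
  rw [← mul_sum, h2] at h1
  refine h1.trans ((mul_le_mul_of_nonneg_left h3 (by positivity)).trans (le_of_eq ?_))
  rw [pow_add, ← mul_assoc, mul_right_comm ((5 / 4 : ℝ) ^ Fintype.card ι), ← mul_pow]
  norm_num

theorem reorder {A : Type} [Ring A] (a a' a'' c c' c'' e e' e'' : A)
    (hc : ∀ x, c * x = x * c) (hc' : ∀ x, c' * x = x * c')
    (he : ∀ x, e * x = x * e) (he' : ∀ x, e' * x = x * e') :
    (a * c * e) * (a' * c' * e') * (a'' * c'' * e'') =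
      (a * a' * a'') * (c * c' * c'') * (e * e' * e'') := by
  have h1 : (a * c * e) * (a' * c' * e') = (a * a') * (c * c') * (e * e') := by
    calc (a * c * e) * (a' * c' * e') = a * c * (e * (a' * c')) * e' := by simp only [mul_assoc]
      _ = a * (c * a') * c' * (e * e') := by rw [he]; simp only [mul_assoc]
      _ = (a * a') * (c * c') * (e * e') := by rw [hc]; simp only [mul_assoc]
  have h2 : ∀ x, (e * e') * x = x * (e * e') := fun x => by
    rw [mul_assoc, he', ← mul_assoc, he, mul_assoc]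
  have h3 : ∀ x, (c * c') * x = x * (c * c') := fun x => by
    rw [mul_assoc, hc', ← mul_assoc, hc, mul_assoc]
  calc (a * c * e) * (a' * c' * e') * (a'' * c'' * e'')
      = (a * a') * (c * c') * ((e * e') * (a'' * c'')) * e'' := by
        rw [h1]; simp only [mul_assoc]
    _ = (a * a') * ((c * c') * a'') * c'' * (e * e' * e'') := by rw [h2]; simp only [mul_assoc]
    _ = (a * a' * a'') * (c * c' * c'') * (e * e' * e'') := by rw [h3]; simp only [mul_assoc]

theorem many {ι : Type} [Fintype ι] (w w' w'' : ι → ℕ) (hw : ∀ i, w i ≤ 3) (hw' : ∀ i, w' i ≤ 3)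
    (hw'' : ∀ i, w'' i ≤ 3) (L : ℕ) (h : Fintype.card ι + 2 * L < ∑ i, w i)
    (h' : Fintype.card ι + 2 * L < ∑ i, w' i) (h'' : Fintype.card ι + 2 * L < ∑ i, w'' i) :
    L ≤ (univ.filter fun i => 3 < w i + w' i + w'' i).card := by
  have h1 : ∑ i, (w i + w' i + w'' i) ≤ ∑ i, (3 + 6 * (if 3 < w i + w' i + w'' i then 1 else 0)) := by
    refine sum_le_sum fun i _ => ?_
    have := hw i
    have := hw' i
    have := hw'' i
    split_ifs <;> omega
  rw [sum_add_distrib, sum_add_distrib, sum_add_distrib, ← mul_sum, ← card_filter, sum_const,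
    card_univ, smul_eq_mul] at h1
  omega

theorem final (h3 : IDE) {K : Type} [Field K] {ι : Type} [Fintype ι] [DecidableEq ι]
    {E : Type} [Group E] [Finite E] (n : ι → ℕ) (PP QQ : Subgroup E)
    (hPc : PP ≤ Subgroup.center E) (hQc : QQ ≤ Subgroup.center E) (hQQ : (Nat.card QQ : K) ≠ 0)
    (hn0 : ∀ i, (0 : ℝ) ≤ (n i : ℝ) - 11 / 100) (L k : ℕ) (lam : Fin k → (QQ →* Kˣ))
    (hk : k ≤ Nat.card QQ)
    (horth : ∀ i j, i ≠ j → ide K QQ (lam i) * ide K QQ (lam j) = 0)
    (hsum : ∑ j, ide K QQ (lam j) = 1) (m : Fin k → ι → ℕ)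
    (B : ∀ l, (∀ i, Fin (m l i)) → MonoidAlgebra K E) (w : ∀ l i, Fin (m l i) → ℕ)
    (hspan : ∀ l, ∀ x : MonoidAlgebra K E, x * ide K QQ (lam l) ∈ Submodule.span K
      {x | ∃ j, ∃ z ∈ PP, x = B l j * gr K z * ide K QQ (lam l)})
    (hvan : ∀ l j j' j'', L ≤ (univ.filter fun i =>
      3 < w l i (j i) + w l i (j' i) + w l i (j'' i)).card → B l j * B l j' * B l j'' = 0)
    (hw3 : ∀ l i j, w l i j ≤ 3)
    (hws : ∀ l i, ∑ j, ((4 : ℝ) / 5) ^ (w l i j) ≤ 4 / 5 * ((n i : ℝ) - 11 / 100)) :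
    ∃ r : ℕ, Bd K E r ∧ (r : ℝ) ≤ (Nat.card PP : ℝ) * Nat.card QQ * (5 / 4) ^ (2 * L) *
      ∏ i, ((n i : ℝ) - 11 / 100) := by
  classical
  have hfd : FiniteDimensional K (MonoidAlgebra K E) := fd
  have : Finite PP := inferInstance
  have : Fintype PP := Fintype.ofFinite PP
  let S : Set (MonoidAlgebra K E) := {x | ∃ l, ∃ j, ∃ z ∈ PP,
    Fintype.card ι + 2 * L < ∑ i, w l i (j i) ∧ x = B l j * gr K z * ide K QQ (lam l)}
  let J := Submodule.span K S
  have hcen : ∀ l x, ide K QQ (lam l) * x = x * ide K QQ (lam l) := fun l x =>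
    ((h3.1 K E QQ (lam l) hQQ).2.2 hQc x).symm
  have hJJJ : J * J * J ≤ ⊥ := by
    rw [Submodule.span_mul_span, Submodule.span_mul_span, Submodule.span_le]
    rintro _ ⟨_, ⟨_, ⟨l, j, z, hz, hj, rfl⟩, _, ⟨l', j', z', hz', hj', rfl⟩, rfl⟩, _,
      ⟨l'', j'', z'', hz'', hj'', rfl⟩, rfl⟩
    change _ * _ * _ = (0 : MonoidAlgebra K E)
    rw [reorder _ _ _ _ _ _ _ _ _ (gr_central (hPc hz)) (gr_central (hPc hz'))
      (hcen l) (hcen l')]
    by_cases h : l = l'
    · subst h
      by_cases h' : l = l''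
      · subst h'
        rw [hvan l j j' j'' (many _ _ _ (fun i => hw3 l i _) (fun i => hw3 l i _)
          (fun i => hw3 l i _) L hj hj' hj''), zero_mul, zero_mul]
      · rw [mul_assoc (ide K QQ (lam l)), horth l l'' h', mul_zero, mul_zero]
    · rw [horth l l' h, zero_mul, mul_zero]
  let T := Σ l : Fin k, {j : ∀ i, Fin (m l i) // ∑ i, w l i (j i) ≤ Fintype.card ι + 2 * L} × PP
  let f : T → MonoidAlgebra K E ⧸ J := fun t =>
    J.mkQ (B t.1 t.2.1 * gr K (t.2.2 : E) * ide K QQ (lam t.1))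
  have hf : (⊤ : Submodule K (MonoidAlgebra K E ⧸ J)) ≤ Submodule.span K (Set.range f) := by
    rintro x -
    obtain ⟨x, rfl⟩ := J.mkQ_surjective x
    have h5 : x = ∑ l, x * ide K QQ (lam l) := by rw [← mul_sum, hsum, mul_one]
    rw [h5, map_sum]
    refine Submodule.sum_mem _ fun l _ => ?_
    have h6 := Submodule.mem_map_of_mem (f := J.mkQ) (hspan l x)
    rw [Submodule.map_span] at h6
    refine (Submodule.span_le.2 ?_ : _ ≤ _) h6
    rintro _ ⟨_, ⟨j, z, hz, rfl⟩, rfl⟩
    by_cases h : ∑ i, w l i (j i) ≤ Fintype.card ι + 2 * L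
    · exact Submodule.subset_span ⟨⟨l, ⟨j, h⟩, ⟨z, hz⟩⟩, rfl⟩
    · have h7 : B l j * gr K z * ide K QQ (lam l) ∈ J :=
        Submodule.subset_span ⟨l, j, z, hz, not_le.1 h, rfl⟩
      have h8 : J.mkQ (B l j * gr K z * ide K QQ (lam l)) = 0 :=
        (Submodule.Quotient.mk_eq_zero J).2 h7
      rw [SetLike.mem_coe, h8]
      exact zero_mem _
  refine ⟨Fintype.card T, ⟨J, ?_, ?_⟩, ?_⟩
  · intro x hx y hy z hz
    have h8 := hJJJ (Submodule.mul_mem_mul (Submodule.mul_mem_mul hx hy) hz)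
    rw [Submodule.mem_bot] at h8
    rw [TT_apply, h8, map_zero]
  · rw [← finrank_top, ← top_le_iff.1 hf]
    exact finrank_range_le_card f
  · have h9 : (Fintype.card T : ℝ) ≤ ∑ l : Fin k, ((5 / 4 : ℝ) ^ (2 * L) *
        (∏ i, ((n i : ℝ) - 11 / 100)) * Nat.card PP) := by
      rw [Fintype.card_sigma]
      push_cast
      refine sum_le_sum fun l _ => ?_
      rw [Fintype.card_prod, Fintype.card_subtype, Nat.card_eq_fintype_card]
      push_cast
      exact mul_le_mul_of_nonneg_right (count n (m l) (w l) (hws l) L) (by positivity)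
    rw [sum_const, card_univ, Fintype.card_fin, nsmul_eq_mul] at h9
    have h10 : (k : ℝ) ≤ Nat.card QQ := by exact_mod_cast hk
    have h11 : (0 : ℝ) ≤ (5 / 4 : ℝ) ^ (2 * L) * (∏ i, ((n i : ℝ) - 11 / 100)) * Nat.card PP :=
      mul_nonneg (mul_nonneg (by positivity) (prod_nonneg fun i _ => hn0 i)) (by positivity)
    refine h9.trans ((mul_le_mul_of_nonneg_right h10 h11).trans (le_of_eq ?_))
    ring

theorem cert (h2 : ALG2) (h3 : IDE) (h4 : CERT1) : CERT := by
  intro p _ K _ _ ι _ E _ _ n PP QQ hCP hroots L hL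
  classical
  obtain ⟨Λ, gΛ, fΛ, π, P, Q, hπ, hP, hQ, hPp, hQp, hcard, hn, rfl, rfl, -⟩ := hCP
  have hQc : (Subgroup.pi Set.univ Q).map π ≤ Subgroup.center E := ps_central π hπ hQ
  have hQQ := card_ne (K := K) (p := p) π Q hQp
  obtain ⟨k, lam, hk, horth, hsum⟩ := h4 K E _ hQc hQQ hroots
  choose m B w hspan hvan hw3 hws using fun l =>
    block (K := K) π h2 h3 n P Q hπ hP hQ hPp hQp hcard hn L hL (lam l)
  refine final h3 n _ _ (ps_central π hπ hP) hQc hQQ ?_ L k lam hk horth hsum m B w hspan hvan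
    hw3 hws
  intro i
  have h5 : n i ≠ 0 := by
    intro h
    have := hcard i
    rw [h, zero_mul, zero_mul] at this
    exact Nat.card_pos.ne' this
  have h6 : (1 : ℝ) ≤ n i := by exact_mod_cast Nat.pos_of_ne_zero h5
  linarith

end Pool.Agent.N38.NSCERT
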