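import Pool.Agent.N841.WS.Stm

/-!
# Project WS, leaf WL: the number of characters is at most the weight
-/

set_option autoImplicit false

open Cardinal Topology TopologicalSpace Set Filter

namespace Pool.Agent.N38.WSWL

open Pool.Agent.N841.WS

theorem sq_step (w : ℂ) (hw : ‖w‖ = 1) (h : ‖w - 1‖ < 1) :
    3 * ‖w - 1‖ ^ 2 ≤ ‖w ^ 2 - 1‖ ^ 2 := by
  have h1 := parallelogram_law_with_norm ℝ w 1
  rw [hw, norm_one] at h1
  have h2 : w ^ 2 - 1 = (w - 1) * (w + 1) := by ring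
  rw [h2, norm_mul, mul_pow]
  have h3 : ‖w + 1‖ ^ 2 = 4 - ‖w - 1‖ ^ 2 := by nlinarith
  rw [h3]
  have h4 : ‖w - 1‖ ^ 2 ≤ 1 := by nlinarith [norm_nonneg (w - 1)]
  nlinarith [sq_nonneg ‖w - 1‖]

theorem cdist (a b : Circle) : dist a b = ‖(a : ℂ) - b‖ := by
  rw [← dist_eq_norm]
  rfl

/-- the circle has no small subgroups -/
theorem circ (z : Circle) (h : ∀ n : ℕ, dist (z ^ n) 1 < 1) : z = 1 := by
  have h0 : ∀ n : ℕ, ‖(z : ℂ) ^ n - 1‖ < 1 := by
    intro n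
    have h1 := h n
    rw [cdist] at h1
    simpa using h1
  have hn : ∀ n : ℕ, ‖(z : ℂ) ^ n‖ = 1 := by
    intro n
    rw [norm_pow, Circle.norm_coe, one_pow]
  have h2 : ∀ n : ℕ, (3 : ℝ) ^ n * ‖(z : ℂ) - 1‖ ^ 2 ≤ ‖(z : ℂ) ^ (2 ^ n) - 1‖ ^ 2 := by
    intro n
    induction n with
    | zero => simp
    | succ n ih =>
      have h3 := sq_step ((z : ℂ) ^ (2 ^ n)) (hn _) (h0 _)
      rw [← pow_mul, ← pow_succ] at h3
      calc (3 : ℝ) ^ (n + 1) * ‖(z : ℂ) - 1‖ ^ 2 = 3 * ((3 : ℝ) ^ n * ‖(z : ℂ) - 1‖ ^ 2) := by ring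
        _ ≤ 3 * ‖(z : ℂ) ^ (2 ^ n) - 1‖ ^ 2 := by linarith
        _ ≤ _ := h3
  by_contra hz
  have h4 : 0 < ‖(z : ℂ) - 1‖ ^ 2 := by
    have : (z : ℂ) - 1 ≠ 0 := by
      intro h5
      apply hz
      apply Circle.ext
      simpa using sub_eq_zero.1 h5
    positivity
  obtain ⟨n, hn'⟩ := pow_unbounded_of_one_lt (‖(z : ℂ) - 1‖ ^ 2)⁻¹ (by norm_num : (1 : ℝ) < 3)
  have h5 := h2 n
  have h6 : 1 < (3 : ℝ) ^ n * ‖(z : ℂ) - 1‖ ^ 2 := by
    have h7 := mul_lt_mul_of_pos_right hn' h4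
    rwa [inv_mul_cancel₀ h4.ne'] at h7
  have h8 := h0 (2 ^ n)
  nlinarith [norm_nonneg ((z : ℂ) ^ (2 ^ n) - 1)]

section

variable {G : Type} [AddCommGroup G] [TopologicalSpace G]

theorem ch_zero (χ : Ch G) : χ.1 0 = 1 := by
  have h := χ.2.2 0 0
  rw [add_zero] at h
  exact (left_eq_mul.1 h)

theorem ch_nsmul (χ : Ch G) (x : G) (n : ℕ) : χ.1 (n • x) = χ.1 x ^ n := by
  induction n with
  | zero => rw [zero_smul, pow_zero, ch_zero]
  | succ n ih => rw [succ_nsmul, χ.2.2, ih, pow_succ]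

theorem circle_dist_mul (a b c d : Circle) :
    dist (a * b) (c * d) ≤ dist a c + (dist b 1 + dist d 1) := by
  have h1 : dist (a * b) (c * d) ≤ dist (a * b) (c * b) + dist (c * b) (c * d) :=
    dist_triangle _ _ _
  have h2 : dist (a * b) (c * b) = dist a c := by
    rw [cdist, cdist, Circle.coe_mul,
      Circle.coe_mul, ← sub_mul, norm_mul, Circle.norm_coe, mul_one]
  have h3 : dist (c * b) (c * d) = dist b d := by
    rw [cdist, cdist, Circle.coe_mul,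
      Circle.coe_mul, ← mul_sub, norm_mul, Circle.norm_coe, one_mul]
  have h4 : dist b d ≤ dist b 1 + dist d 1 := by
    rw [dist_comm d 1]
    exact dist_triangle _ _ _
  linarith

theorem circle_dist_div (a b : Circle) : dist (a / b) 1 = dist a b := by
  have h : a = (a / b) * b := by simp
  have h3 : dist ((a / b) * b) (1 * b) = dist (a / b) 1 := by
    rw [cdist, cdist, Circle.coe_mul,
      Circle.coe_mul, ← sub_mul, norm_mul, Circle.norm_coe, mul_one]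
  rw [← h3, one_mul, ← h]

theorem ch_eq (χ χ' : Ch G) (h : ∀ g, dist (χ.1 g) (χ'.1 g) < 1) : χ = χ' := by
  apply Subtype.ext
  funext g
  have h1 : χ.1 g / χ'.1 g = 1 := by
    apply circ
    intro n
    rw [div_pow, ← ch_nsmul, ← ch_nsmul, circle_dist_div]
    exact h _
  exact div_eq_one.1 h1

theorem fin_small (hG : TBd G) (U : Set G) (hU : U ∈ 𝓝 (0 : G)) :
    {χ : Ch G | ∀ x ∈ U, dist (χ.1 x) 1 < 1 / 4}.Finite := by
  obtain ⟨F, hF⟩ := hG U hU
  obtain ⟨t, ht, hcov⟩ := Metric.totallyBounded_iff.1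
    (isCompact_univ (X := (F → Circle))).totallyBounded (1 / 8) (by norm_num)
  have hc : ∀ k : F → Circle, ∃ y, y ∈ t ∧ dist k y < 1 / 8 := by
    intro k
    have h1 := hcov (mem_univ k)
    simp only [mem_iUnion, Metric.mem_ball, exists_prop] at h1
    exact h1
  choose c hct hcd using hc
  refine Set.Finite.of_injOn (f := fun χ : Ch G => c (fun x => χ.1 x.1)) (t := t)
    (fun χ _ => hct _) ?_ ht
  intro χ hχ χ' hχ' he
  apply ch_eq
  intro g
  obtain ⟨x, hx, hu⟩ := hF g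
  have hd : dist (fun x : F => χ.1 x.1) (fun x : F => χ'.1 x.1) < 1 / 4 := by
    have h1 := hcd (fun x : F => χ.1 x.1)
    have h2 := hcd (fun x : F => χ'.1 x.1)
    have he' : c (fun x : F => χ.1 x.1) = c (fun x : F => χ'.1 x.1) := he
    rw [he'] at h1
    have h3 := dist_triangle_right (fun x : F => χ.1 x.1) (fun x : F => χ'.1 x.1)
      (c (fun x : F => χ'.1 x.1))
    linarith
  have hx' : dist (χ.1 x) (χ'.1 x) < 1 / 4 :=
    lt_of_le_of_lt (dist_le_pi_dist (fun x : F => χ.1 x.1) (fun x : F => χ'.1 x.1) ⟨x, hx⟩) hd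
  have hg : g = x + (g - x) := by abel
  rw [hg, χ.2.2, χ'.2.2]
  have h5 := circle_dist_mul (χ.1 x) (χ.1 (g - x)) (χ'.1 x) (χ'.1 (g - x))
  have h6 : dist (χ.1 (g - x)) 1 < 1 / 4 := hχ _ hu
  have h7 : dist (χ'.1 (g - x)) 1 < 1 / 4 := hχ' _ hu
  linarith

end

theorem t_WL : S_WL := by
  intro G _ _ _ hG
  have hne : {κ : Cardinal.{0} | ∃ B : Set (Set G), IsTopologicalBasis B ∧ #B = κ}.Nonempty :=
    ⟨_, _, isTopologicalBasis_opens, rfl⟩
  obtain ⟨B, hB, hBw⟩ := csInf_mem hne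
  have hw : weight G = #B := hBw.symm
  have hU : ∀ χ : Ch G, ∃ U ∈ B, (0 : G) ∈ U ∧ U ⊆ {x | dist (χ.1 x) 1 < 1 / 4} := by
    intro χ
    have h1 : {x | dist (χ.1 x) 1 < 1 / 4} ∈ 𝓝 (0 : G) := by
      have h2 : Continuous fun x => dist (χ.1 x) 1 := χ.2.1.dist continuous_const
      refine (isOpen_lt h2 continuous_const).mem_nhds ?_
      change dist (χ.1 0) 1 < 1 / 4
      rw [ch_zero, dist_self]
      norm_num
    obtain ⟨U, hUB, h0, hsub⟩ := hB.mem_nhds_iff.1 h1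
    exact ⟨U, hUB, h0, hsub⟩
  choose U hUB hU0 hUs using hU
  let f : Ch G → B := fun χ => ⟨U χ, hUB χ⟩
  have hfib : ∀ b : B, #(f ⁻¹' {b}) ≤ ℵ₀ := by
    intro b
    by_cases hb : ∃ χ, f χ = b
    · obtain ⟨χ₀, hχ₀⟩ := hb
      have hb0 : b.1 ∈ 𝓝 (0 : G) := by
        rw [← hχ₀]
        exact (hB.isOpen (hUB χ₀)).mem_nhds (hU0 χ₀)
      have h1 : (f ⁻¹' {b}).Finite := by
        refine (fin_small hG b.1 hb0).subset ?_
        intro χ hχ x hx
        have h2 : f χ = b := hχ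
        rw [← h2] at hx
        exact hUs χ hx
      exact (Cardinal.lt_aleph0_iff_set_finite.2 h1).le
    · have h1 : f ⁻¹' {b} = ∅ := by
        ext χ
        simp only [mem_preimage, mem_singleton_iff, mem_empty_iff_false, iff_false]
        exact fun h => hb ⟨χ, h⟩
      rw [h1]
      simp
  have h1 := Cardinal.mk_le_mk_mul_of_mk_preimage_le f hfib
  rw [hw]
  refine h1.trans ((Cardinal.mul_le_max _ _).trans ?_)
  simp

end Pool.Agent.N38.WSWL
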